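import Pool.Agent.H78.OX.Targets
import Pool.Agent.H70.OQ.SGG

/-!
# Modules SGX and SQX of the board ox_modules (MP_0f8dca_lc): one stage of the construction
-/

set_option autoImplicit false

namespace Pool.Agent.H58.OX

open Finset Filter Pool.Agent.H6.NB Pool.Agent.H70.OQ Pool.Agent.H70.EH Pool.Agent.H78.XQ
  Pool.Agent.H78.OX

/-- A good row with a prescribed first bit. -/
theorem good (h2 : T_BBV) {n c C M a : ℕ} {ε : ℝ} (hn2 : 2 ≤ n) (hnc : n ^ c + c ≤ n ^ 2 ^ a)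
    {O₁ : List Bool → Bool} {O : (Fin n → Bool) → List Bool → Bool}
    (hfew : ∀ w : List Bool, w.length ≤ n ^ 2 ^ a →
      (univ.filter fun x => O x w ≠ O₁ w).card ≤ M)
    (hfin : 4 * (((4 * C : ℕ) : ℝ) * 2 ^ ((1 / 2 - ε) * n)) * √(M / 2 ^ n) < 1 / 3)
    (Q : QAlg) (hQ : Q.Short (n ^ c + c)) (hT : (Q.T : ℝ) ≤ C * 2 ^ ((1 / 2 - ε) * n))
    (b : Bool) : ∃ x : Fin n → Bool, (List.ofFn x).head? = some b ∧
      |Q.prob (O x) - Q.prob O₁| < 1 / 6 := by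
  classical
  obtain ⟨m, hm⟩ : ∃ m, n = m + 1 := ⟨n - 1, by omega⟩
  let f : (Fin m → Bool) → (Fin n → Bool) := fun y i =>
    (Fin.cons b y : Fin (m + 1) → Bool) (Fin.cast hm i)
  have hf : Function.Injective f := by
    intro y y' h
    have h' : (Fin.cons b y : Fin (m + 1) → Bool) = Fin.cons b y' := by
      funext i
      have := congrFun h (Fin.cast hm.symm i)
      simpa [f] using this
    exact (Fin.cons_injective2 h').2
  have hhead : ∀ y, (List.ofFn (f y)).head? = some b := by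
    intro y
    subst hm
    simp [f]
  obtain ⟨y, hy⟩ := h2 (Fin m → Bool) Q O₁ (fun y => O (f y)) M fun i w' hw' => by
    refine le_trans ?_ (hfew w' ((hQ i w' hw').trans hnc))
    rw [← card_map ⟨f, hf⟩]
    refine card_le_card fun x hx => ?_
    rw [Finset.mem_map] at hx
    obtain ⟨y, hy, rfl⟩ := hx
    rw [mem_filter] at hy ⊢
    exact ⟨mem_univ _, hy.2⟩
  refine ⟨f y, hhead y, lt_of_le_of_lt hy ?_⟩
  have hcm : (Fintype.card (Fin m → Bool) : ℝ) = 2 ^ m := by simp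
  rw [hcm]
  have hs2 : √((M : ℝ) / 2 ^ m) ≤ 2 * √((M : ℝ) / 2 ^ n) := by
    rw [show (M : ℝ) / 2 ^ m = 2 * ((M : ℝ) / 2 ^ n) by rw [hm, pow_succ]; field_simp,
      Real.sqrt_mul (by norm_num)]
    refine mul_le_mul_of_nonneg_right ?_ (Real.sqrt_nonneg _)
    rw [Real.sqrt_le_left (by norm_num)]
    norm_num
  have hT' : 4 * (Q.T : ℝ) * √((M : ℝ) / 2 ^ m) ≤
      4 * (C * 2 ^ ((1 / 2 - ε) * n)) * (2 * √((M : ℝ) / 2 ^ n)) :=
    mul_le_mul (mul_le_mul_of_nonneg_left hT (by norm_num)) hs2 (Real.sqrt_nonneg _)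
      (by positivity)
  refine lt_of_le_of_lt hT' ?_
  push_cast at hfin
  nlinarith [hfin]

theorem two_pow_sub_pos (k : ℕ) : 0 < 2 ^ (k + 1) - 1 := by
  have : 2 ≤ 2 ^ (k + 1) := by
    calc 2 = 2 ^ 1 := by norm_num
      _ ≤ 2 ^ (k + 1) := Nat.pow_le_pow_right (by norm_num) (by omega)
  omega

theorem spec_other (hSDX : T_SDX) (hSPC : T_SPC) {J n a : ℕ} (hn : 2 ≤ n)
    (σ₀ : List Bool → Bool) (T : Nn n J → Bool) (κ : Om n (2 ^ a) → Bool) (P : Bkx n (2 ^ a))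
    (z : Zx n (2 ^ a)) (u : List Bool) (hu : u.length ≠ n) :
    Special J (sdx J n (2 ^ a) σ₀ T κ P z) u ↔ Special J σ₀ u := by
  refine hSPC J _ _ u fun w hw => ?_
  refine (hSDX J n a hn σ₀ T κ P z).2.1 w ?_
  rw [hw]
  intro h
  exact hu (Nat.eq_of_mul_eq_mul_left (two_pow_sub_pos J) h)

theorem spec_unique (hSPX : T_SPX) {J n a : ℕ} (σ₀ : List Bool → Bool)
    (H : Hid (Fin n → Bool) (Ys n) J) (κ : Om n (2 ^ a) → Bool) (P : Bkx n (2 ^ a))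
    (z : Zx n (2 ^ a)) (x : Fin n → Bool) :
    ∃! u : List Bool, u.length = n ∧ Special J (sdx J n (2 ^ a) σ₀ (tabU J H x) κ P z) u := by
  refine ⟨List.ofFn x, ⟨by simp, ((hSPX J n a σ₀ H κ P z _ (by simp)).2 x).2 rfl⟩, ?_⟩
  intro u' hu'
  exact ((hSPX J n a σ₀ H κ P z u' hu'.1).2 x).1 hu'.2

theorem hlangX_iff (hSPX : T_SPX) (hSPC : T_SPC)
    {A : List Bool → (List Bool → Bool) → Prop} {J n a : ℕ} {σ₀ O : List Bool → Bool}
    {H : Hid (Fin n → Bool) (Ys n) J} {κ : Om n (2 ^ a) → Bool} {P : Bkx n (2 ^ a)}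
    {z : Zx n (2 ^ a)} {x : Fin n → Bool}
    (h1 : Bldg A (sdx J n (2 ^ a) σ₀ (tabU J H x) κ P z) O) :
    List.replicate n false ∈ hlang J O ↔ (List.ofFn x).head? = some true := by
  unfold hlang
  simp only [Set.mem_ofPred_eq, List.length_replicate]
  constructor
  · rintro ⟨u, hu, hh, h⟩
    have : u = List.ofFn x :=
      ((hSPX J n a σ₀ H κ P z u hu).2 x).1 ((SGG.special_bld hSPC h1 J u).1 h)
    rw [← this]
    exact hh
  · intro h
    exact ⟨List.ofFn x, by simp, h, (SGG.special_bld hSPC h1 J _).2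
      (((hSPX J n a σ₀ H κ P z _ (by simp)).2 x).2 rfl)⟩

theorem hlangX_not (hSPX : T_SPX) (hSPC : T_SPC)
    {A : List Bool → (List Bool → Bool) → Prop} {J n a : ℕ} {σ₀ O : List Bool → Bool}
    {H : Hid (Fin n → Bool) (Ys n) J} {κ : Om n (2 ^ a) → Bool} {P : Bkx n (2 ^ a)}
    {z : Zx n (2 ^ a)}
    (h1 : Bldg A (sdx J n (2 ^ a) σ₀ (tabT J H) κ P z) O) :
    List.replicate n false ∉ hlang J O := by
  unfold hlang
  simp only [Set.mem_ofPred_eq, List.length_replicate]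
  rintro ⟨u, hu, _, h⟩
  exact (hSPX J n a σ₀ H κ P z u hu).1 ((SGG.special_bld hSPC h1 J u).1 h)

theorem sgx (hLAK : T_LAK) (hSTX : T_STX) (hBBV : T_BBV) (hPCG : T_PCG) (hBUG : T_BUG)
    (hSDX : T_SDX) (hSPX : T_SPX) (hSPC : T_SPC) : T_SGX := by
  intro k c C ε hε prog hs
  have hA : LocA (acck (k + 1) prog) := hLAK (k + 1) prog hs
  filter_upwards [hSTX k c (4 * C) ε hε prog hs] with n hn Q hQ hT σ₀ hσ
  obtain ⟨a, M, H, κ, P, z, O₁, O, hn2, hnc, hn1, hM1, hfin, hO₁, hO, hDec, hfew⟩ := hn σ₀ hσ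
  obtain ⟨x₁, hb1, hx1⟩ := good hBBV hn2 hnc hfew hfin Q hQ hT true
  obtain ⟨x₀, hb0, hx0⟩ := good hBBV hn2 hnc hfew hfin Q hQ hT false
  by_cases hc : Correct Q (O x₁) (hlang (k + 1) (O x₁)) (List.replicate n false)
  · refine ⟨sdx (k + 1) n (2 ^ a) σ₀ (tabU (k + 1) H x₀) κ P z, n ^ 2 ^ a,
      (hSDX (k + 1) n a hn2 σ₀ _ κ P z).1, hDec _, spec_other hSDX hSPC hn2 σ₀ _ κ P z,
      spec_unique hSPX σ₀ H κ P z x₀, fun σ' O' he hB hcor => ?_⟩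
    have hcx := SGG.correct_congr hPCG hBUG hSPC hA hn1 hQ hnc (hO x₀) hB he hcor
    have p1 := hc.1 ((hlangX_iff hSPX hSPC (hO x₁)).2 hb1)
    have p0 := hcx.2 (fun h => by
      have := (hlangX_iff hSPX hSPC (hO x₀)).1 h
      rw [hb0] at this
      simp at this)
    have q1 := abs_lt.1 hx1
    have q0 := abs_lt.1 hx0
    linarith [q1.1, q1.2, q0.1, q0.2]
  · exact ⟨sdx (k + 1) n (2 ^ a) σ₀ (tabU (k + 1) H x₁) κ P z, n ^ 2 ^ a,
      (hSDX (k + 1) n a hn2 σ₀ _ κ P z).1, hDec _, spec_other hSDX hSPC hn2 σ₀ _ κ P z,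
      spec_unique hSPX σ₀ H κ P z x₁, fun σ' O' he hB hcor =>
        hc (SGG.correct_congr hPCG hBUG hSPC hA hn1 hQ hnc (hO x₁) hB he hcor)⟩

/-- The special language depends only on short strings. -/
theorem hlang_congr (hSPC : T_SPC) {k n L : ℕ} (hn : 2 ^ (k + 1) * n + 1 ≤ L)
    {O O' : List Bool → Bool} (h1 : ∀ w : List Bool, w.length ≤ L → O' w = O w) :
    List.replicate n false ∈ hlang k O' ↔ List.replicate n false ∈ hlang k O := by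
  unfold hlang
  simp only [Set.mem_ofPred_eq, List.length_replicate]
  refine exists_congr fun u => and_congr_right fun hu => and_congr_right fun _ => ?_
  refine hSPC k _ _ u fun w hw => h1 _ ?_
  rw [List.length_cons, hw, hu]
  have : (2 ^ (k + 1) - 1) * n ≤ 2 ^ (k + 1) * n := Nat.mul_le_mul_right _ (Nat.sub_le _ _)
  omega

theorem sqx (hLAK : T_LAK) (hSTX : T_STX) (hBBV : T_BBV) (hPCG : T_PCG) (hBUG : T_BUG)
    (hSDX : T_SDX) (hSPX : T_SPX) (hSPC : T_SPC) : T_SQX := by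
  intro k c C ε hε prog hs
  have hA : LocA (acck (k + 1) prog) := hLAK (k + 1) prog hs
  filter_upwards [hSTX k c (4 * C) ε hε prog hs] with n hn R hQ hT σ₀ hσ
  obtain ⟨a, M, H, κ, P, z, O₁, O, hn2, hnc, hn1, hM1, hfin, hO₁, hO, hDec, hfew⟩ := hn σ₀ hσ
  have hsh : ∀ (ψ : R.alg.basis → ℂ) (h : ∑ i, ‖ψ i‖ ^ 2 = 1),
      (wth R.alg ψ h).Short (n ^ c + c) := fun ψ h => hQ
  by_cases hw : ∃ (ψ : R.alg.basis → ℂ) (h : ∑ i, ‖ψ i‖ ^ 2 = 1), (∀ i, i ∉ R.wit → ψ i = 0) ∧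
      2 / 3 ≤ (wth R.alg ψ h).prob O₁
  · obtain ⟨ψ, h, hψ, hpr⟩ := hw
    obtain ⟨x₁, hb1, hx1⟩ := good hBBV hn2 hnc hfew hfin (wth R.alg ψ h) (hsh ψ h) hT true
    refine ⟨sdx (k + 1) n (2 ^ a) σ₀ (tabU (k + 1) H x₁) κ P z, n ^ 2 ^ a,
      (hSDX (k + 1) n a hn2 σ₀ _ κ P z).1, hDec _, spec_other hSDX hSPC hn2 σ₀ _ κ P z,
      fun σ' O' he hB hcor => ?_⟩
    have h1 : ∀ w : List Bool, w.length ≤ n ^ 2 ^ a → O' w = O x₁ w :=
      hBUG _ σ' _ O' (O x₁) _ hA hB (hO x₁) he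
    have h2 : (wth R.alg ψ h).prob O' = (wth R.alg ψ h).prob (O x₁) :=
      hPCG _ O' (O x₁) fun i w hw => h1 w ((hsh ψ h i w hw).trans hnc)
    have h3 : List.replicate n false ∈ hlang (k + 1) O' :=
      (hlang_congr hSPC hn1 h1).2 ((hlangX_iff hSPX hSPC (hO x₁)).2 hb1)
    have h4 := hcor.2 (fun h => h h3) ψ h hψ
    rw [h2] at h4
    have q1 := abs_lt.1 hx1
    linarith [q1.1, q1.2]
  · refine ⟨sdx (k + 1) n (2 ^ a) σ₀ (tabT (k + 1) H) κ P z, n ^ 2 ^ a,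
      (hSDX (k + 1) n a hn2 σ₀ _ κ P z).1, hDec _, spec_other hSDX hSPC hn2 σ₀ _ κ P z,
      fun σ' O' he hB hcor => ?_⟩
    have h1 : ∀ w : List Bool, w.length ≤ n ^ 2 ^ a → O' w = O₁ w :=
      hBUG _ σ' _ O' O₁ _ hA hB hO₁ he
    have h3 : List.replicate n false ∉ hlang (k + 1) O' := fun h =>
      hlangX_not hSPX hSPC hO₁ ((hlang_congr hSPC hn1 h1).1 h)
    obtain ⟨ψ, h, hψ, hpr⟩ := hcor.1 h3
    have h2 : (wth R.alg ψ h).prob O' = (wth R.alg ψ h).prob O₁ :=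
      hPCG _ O' O₁ fun i w hw => h1 w ((hsh ψ h i w hw).trans hnc)
    rw [h2] at hpr
    exact hw ⟨ψ, h, hψ, hpr⟩

end Pool.Agent.H58.OX
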