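import Pool.Agent.H78.OX.Targets

/-!
# Module STX of the board ox_modules (MP_0f8dca_lc): the configuration of a stage
-/

set_option autoImplicit false

namespace Pool.Agent.H58.OX

open Finset Filter Pool.Agent.H6.NB Pool.Agent.H70.OQ Pool.Agent.H70.EH Pool.Agent.H78.XQ
  Pool.Agent.H78.OX

theorem stx (hCFX : T_CFX) (hFMX : T_FMX) (hBLG : T_BLG) (hLAK : T_LAK) (hFXD : T_FXD)
    (hEXG : T_EXG) (hMEG : T_MEG) (hDAX : T_DAX) (hFWX : T_FWX) : T_STX := by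
  intro k c C ε hε prog hs
  have hA : LocA (acck (k + 1) prog) := hLAK (k + 1) prog hs
  obtain ⟨a, ha⟩ := hCFX k c C ε hε
  filter_upwards [ha] with n hn σ₀ hσ
  obtain ⟨t, M, K, hn2, hnc, hn1, hnt, hM1, hKM, hfin, hcf⟩ := hn
  obtain ⟨O₀, h0⟩ := hBLG _ hA σ₀
  obtain ⟨D, hSys, hLow, hD⟩ := hFMX (k + 1) (k + 1) le_rfl prog n a t O₀ hs hn2 hnt
  obtain ⟨H, κ, P, z, hTyp, hFit⟩ := hcf D hSys hLow
  have hLvl := (hMEG (Bt (k + 1) n (2 ^ a)) (Om n (2 ^ a)) (fun s => 2 ^ (2 * s.1.length))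
    (fun s => qs s.1) D (fun s => lv n s.1) (2 ^ t) t (k + 1) a hSys P).1
  obtain ⟨-, hun, -, -⟩ := hEXG (Bt (k + 1) n (2 ^ a)) (Om n (2 ^ a)) (accG D P)
    (fun s => lv n s.1) a hLvl
  obtain ⟨O₁, hO₁⟩ := hBLG _ hA (sdx (k + 1) n (2 ^ a) σ₀ (tabT (k + 1) H) κ P z)
  have hOx := fun x => hBLG _ hA (sdx (k + 1) n (2 ^ a) σ₀ (tabU (k + 1) H x) κ P z)
  choose O hO using hOx
  have hf1 := hFXD _ hA (k + 1) n a hn2 σ₀ O₀ O₁ h0 (tabT (k + 1) H) κ P z hO₁ D hD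
  have hfx := fun x => hFXD _ hA (k + 1) n a hn2 σ₀ O₀ (O x) h0 (tabU (k + 1) H x) κ P z (hO x)
    D hD
  have e1 : (fun s : Om n (2 ^ a) => O₁ (key s.1)) =
      elG (accG D P) (Sum.elim (tabT (k + 1) H) z) κ a := hun _ κ _ hf1
  have ex1 : ∀ x, (fun s : Om n (2 ^ a) => O x (key s.1)) =
      elG (accG D P) (Sum.elim (tabU (k + 1) H x) z) κ a := fun x => hun _ κ _ (hfx x)
  have etht : thG (accG D P) (Sum.elim (tabT (k + 1) H) z)
      (fun s : Om n (2 ^ a) => O₁ (key s.1)) = κ := by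
    funext s
    have h := hf1 s
    change xor (O₁ (key s.1)) (accG D P s (Sum.elim (tabT (k + 1) H) z)
      fun s => O₁ (key s.1)) = κ s
    generalize (accG D P s (Sum.elim (tabT (k + 1) H) z) fun s => O₁ (key s.1)) = b at h ⊢
    rw [h]
    cases b <;> cases κ s <;> rfl
  have hex : ∀ x, exG (accG D P) a (Sum.elim (tabT (k + 1) H) z)
      (Sum.elim (tabU (k + 1) H x) z) (fun s : Om n (2 ^ a) => O₁ (key s.1)) =
        fun s => O x (key s.1) := by
    intro x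
    unfold exG
    rw [etht, ex1 x]
  have hK : ∀ s : Om n (2 ^ a),
      (univ.filter fun x => O x (key s.1) ≠ O₁ (key s.1)).card ≤ M := by
    intro s
    have ht := hTyp s (hSys.lt s)
    rw [← e1] at ht
    refine le_trans (le_of_eq ?_) (ht.trans (hKM _ (hSys.lt s)))
    unfold dsG
    have hset : (univ.filter fun x => O x (key s.1) ≠ O₁ (key s.1)) =
        univ.filter fun x => dlG (accG D P) a (Sum.elim (tabT (k + 1) H) z)
          (Sum.elim (tabU (k + 1) H x) z) (fun s : Om n (2 ^ a) => O₁ (key s.1)) s = true := by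
      refine filter_congr fun x _ => ?_
      unfold dlG
      rw [hex x]
      simp only []
      cases O x (key s.1) <;> cases O₁ (key s.1) <;> simp
    rw [hset]
  refine ⟨a, M, H, κ, P, z, O₁, O, hn2, hnc, hn1, hM1, hfin, hO₁, hO, ?_, ?_⟩
  · intro T s
    exact hDAX (k + 1) n a σ₀ hσ T κ P z hFit s
  · intro w hw
    exact hFWX _ hA (k + 1) n a hn2 σ₀ O₀ O₁ h0 H κ P z hO₁ O hO M hM1 hK w hw

end Pool.Agent.H58.OX
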